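import Pool.Agent.H699.T.Forest

/-!
# Prim's algorithm inside a set: a good parent function
-/

set_option autoImplicit false

namespace Pool.Agent.H399.T.INNER

open Finset Classical
open Pool.Agent.H699.T

variable {N : ℕ}

/-- The invariant of Prim's algorithm. -/
structure Inv (κ : Fin N → Fin N → ℕ) (C : Finset (Fin N)) (z : Fin N) (m : ℕ)
    (S : Finset (Fin N)) (q : Fin N → Fin N) (rk : Fin N → ℕ) : Prop where
  sub : S ⊆ C
  zS : z ∈ S
  card : S.card = m
  rkz : rk z = 0
  lt : ∀ v ∈ S, rk v < m
  out : ∀ v, v ∉ S → rk v = 0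
  inj : ∀ v ∈ S, ∀ v' ∈ S, rk v = rk v' → v = v'
  par : ∀ v ∈ S, v ≠ z → q v ∈ S ∧ rk (q v) < rk v
  cut : ∀ v ∈ S, v ≠ z → ∀ a ∈ S, rk a < rk v → ∀ b ∈ C, ¬ (b ∈ S ∧ rk b < rk v) →
    κ v (q v) ≤ κ a b

theorem inv_exists (κ : Fin N → Fin N → ℕ) (hs : ∀ x y, κ x y = κ y x) (C : Finset (Fin N))
    (z : Fin N) (hz : z ∈ C) (m : ℕ) (hm : 1 ≤ m) :
    m ≤ C.card → ∃ S q rk, Inv κ C z m S q rk := by
  induction m, hm using Nat.le_induction with
  | base =>
    intro _
    refine ⟨{z}, id, fun _ => 0, ?_, ?_, ?_, ?_, ?_, ?_, ?_, ?_, ?_⟩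
    · intro x hx
      rw [mem_singleton] at hx
      rw [hx]
      exact hz
    · exact mem_singleton_self z
    · exact card_singleton z
    · rfl
    · intro v _
      exact Nat.one_pos
    · intro v _
      rfl
    · intro v hv v' hv' _
      rw [mem_singleton] at hv hv'
      rw [hv, hv']
    · intro v hv hvz
      exact absurd (mem_singleton.mp hv) hvz
    · intro v hv hvz
      exact absurd (mem_singleton.mp hv) hvz
  | succ m hm ih =>
    intro hC
    obtain ⟨S, q, rk, hI⟩ := ih (by omega)
    have hne : (S ×ˢ (C \ S)).Nonempty := by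
      have h1 : (C \ S).Nonempty := by
        rw [← card_pos, card_sdiff_of_subset hI.sub, hI.card]
        omega
      exact Finset.Nonempty.product ⟨z, hI.zS⟩ h1
    obtain ⟨⟨a, b⟩, hab, hmin⟩ := exists_min_image (S ×ˢ (C \ S)) (fun e => κ e.1 e.2) hne
    rw [mem_product, mem_sdiff] at hab
    obtain ⟨haS, hbC, hbS⟩ := hab
    simp only at haS hbC hbS
    have hmin' : ∀ a' ∈ S, ∀ b' ∈ C, b' ∉ S → κ a b ≤ κ a' b' := by
      intro a' ha' b' hb' hbn
      exact hmin (a', b') (mem_product.mpr ⟨ha', mem_sdiff.mpr ⟨hb', hbn⟩⟩)
    have hnb : ∀ v ∈ S, v ≠ b := fun v hv h => hbS (h ▸ hv)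
    have hzb : z ≠ b := hnb z hI.zS
    have hab' : a ≠ b := hnb a haS
    have hrk : ∀ v, v ≠ b → Function.update rk b m v = rk v := fun v hv =>
      Function.update_of_ne hv _ _
    have hrb : Function.update rk b m b = m := Function.update_self _ _ _
    have hqq : ∀ v, v ≠ b → Function.update q b a v = q v := fun v hv =>
      Function.update_of_ne hv _ _
    have hqb : Function.update q b a b = a := Function.update_self _ _ _
    refine ⟨insert b S, Function.update q b a, Function.update rk b m,
      ?_, ?_, ?_, ?_, ?_, ?_, ?_, ?_, ?_⟩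
    · exact insert_subset hbC hI.sub
    · exact mem_insert_of_mem hI.zS
    · rw [card_insert_of_notMem hbS, hI.card]
    · rw [hrk z hzb, hI.rkz]
    · intro v hv
      rcases mem_insert.mp hv with h | h
      · rw [h, hrb]
        omega
      · rw [hrk v (hnb v h)]
        have := hI.lt v h
        omega
    · intro v hv
      rw [mem_insert, not_or] at hv
      rw [hrk v hv.1, hI.out v hv.2]
    · intro v hv v' hv' he
      rcases mem_insert.mp hv with h | h <;> rcases mem_insert.mp hv' with h' | h'
      · rw [h, h']
      · exfalso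
        rw [h, hrb, hrk v' (hnb v' h')] at he
        have := hI.lt v' h'
        omega
      · exfalso
        rw [h', hrb, hrk v (hnb v h)] at he
        have := hI.lt v h
        omega
      · rw [hrk v (hnb v h), hrk v' (hnb v' h')] at he
        exact hI.inj v h v' h' he
    · intro v hv hvz
      rcases mem_insert.mp hv with h | h
      · rw [h, hqb, hrb, hrk a hab']
        exact ⟨mem_insert_of_mem haS, hI.lt a haS⟩
      · rw [hqq v (hnb v h), hrk v (hnb v h)]
        obtain ⟨h1, h2⟩ := hI.par v h hvz
        rw [hrk _ (hnb _ h1)]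
        exact ⟨mem_insert_of_mem h1, h2⟩
    · intro v hv hvz c hc hcv d hd hdn
      rcases mem_insert.mp hv with h | h
      · rw [h] at hcv hdn ⊢
        rw [hrb] at hcv hdn
        rw [hqb, hs b a]
        have hcS : c ∈ S := by
          rcases mem_insert.mp hc with h' | h'
          · exfalso
            rw [h', hrb] at hcv
            omega
          · exact h'
        have hdS : d ∉ S := by
          intro h'
          apply hdn
          refine ⟨mem_insert_of_mem h', ?_⟩
          rw [hrk d (hnb d h')]
          exact hI.lt d h'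
        exact hmin' c hcS d hd hdS
      · rw [hrk v (hnb v h)] at hcv hdn
        rw [hqq v (hnb v h)]
        have hcS : c ∈ S := by
          rcases mem_insert.mp hc with h' | h'
          · exfalso
            rw [h', hrb] at hcv
            have := hI.lt v h
            omega
          · exact h'
        rw [hrk c (hnb c hcS)] at hcv
        refine hI.cut v h hvz c hcS hcv d hd ?_
        rintro ⟨h1, h2⟩
        apply hdn
        refine ⟨mem_insert_of_mem h1, ?_⟩
        rw [hrk d (hnb d h1)]
        exact h2

theorem t_INNER : S_INNER := by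
  intro N κ hs C z hz
  obtain ⟨S, q, rk, hI⟩ := inv_exists κ hs C z hz C.card (card_pos.mpr ⟨z, hz⟩) le_rfl
  have hSC : S = C := eq_of_subset_of_card_le hI.sub hI.card.ge
  subst hSC
  have hcN : S.card ≤ N := by
    have := card_le_univ S
    rwa [Fintype.card_fin] at this
  refine ⟨q, rk, ?_, ?_, ?_⟩
  · intro v
    by_cases hv : v ∈ S
    · have := hI.lt v hv
      omega
    · rw [hI.out v hv]
      exact Nat.zero_le N
  · exact hI.par
  · intro t v hv v' hv' hne h1 h2 hcon
    rcases lt_trichotomy (rk v) (rk v') with h | h | h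
    · have hz' : v' ≠ z := by
        intro h0
        rw [h0, hI.rkz] at h
        omega
      have ht : t ≤ κ v' (q v') := h2.resolve_left hz'
      have key : ∀ x, ConnIn κ S t v x → rk x < rk v' := by
        intro x hx
        induction hx with
        | refl => exact h
        | tail _ hxy ihx =>
          obtain ⟨hx, hy, hlt⟩ := hxy
          by_contra hcc
          have := hI.cut v' hv' hz' _ hx ihx _ hy (fun hh => hcc hh.2)
          omega
      exact absurd (key v' hcon) (lt_irrefl _)
    · exact hne (hI.inj v hv v' hv' h)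
    · have hz' : v ≠ z := by
        intro h0
        rw [h0, hI.rkz] at h
        omega
      have ht : t ≤ κ v (q v) := h1.resolve_left hz'
      have key : ∀ x, ConnIn κ S t v x → ¬ rk x < rk v := by
        intro x hx
        induction hx with
        | refl => exact lt_irrefl _
        | tail _ hxy ihx =>
          obtain ⟨hx, hy, hlt⟩ := hxy
          intro hcc
          have h3 := hI.cut v hv hz' _ hy hcc _ hx (fun hh => ihx hh.2)
          have h4 := hs _ _ ▸ hlt
          exact absurd (lt_of_le_of_lt (ht.trans h3) h4) (lt_irrefl _)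
      exact key v' hcon h

end Pool.Agent.H399.T.INNER
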